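import Pool.Agent.Y230.TL.Stm

set_option autoImplicit false
set_option linter.unusedSectionVars false

/-! # Reduced forced roots: lemmas (for helper230) -/

namespace Pool.Agent.Y475.TL

open MvPolynomial
open Pool.Agent.W574.SM Pool.Agent.W574.HS Pool.Agent.W574.RO Pool.Agent.Y229
open Pool.Agent.Y230.TL

/-- an operator in more variables -/
theorem lift_inj {σ τ : Type} (f : σ → τ) (hf : Function.Injective f) (Q : weyl σ) :
    ∃ Q' : weyl τ, ∀ q : MvPolynomial σ ℂ,
      (Q' : Module.End ℂ (MvPolynomial τ ℂ)) (rename f q) =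
        rename f ((Q : Module.End ℂ (MvPolynomial σ ℂ)) q) := by
  obtain ⟨Q, hQ⟩ := Q
  induction hQ using Algebra.adjoin_induction with
  | mem Q h =>
    rcases h with ⟨i, rfl⟩ | ⟨i, rfl⟩
    · refine ⟨⟨_, Algebra.subset_adjoin (Or.inl ⟨f i, rfl⟩)⟩, fun q => ?_⟩
      show X (f i) * rename f q = rename f (X i * q)
      rw [map_mul, rename_X]
    · refine ⟨⟨_, Algebra.subset_adjoin (Or.inr ⟨f i, rfl⟩)⟩, fun q => ?_⟩
      show pderiv (f i) (rename f q) = rename f (pderiv i q)
      exact pderiv_rename hf i q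
  | algebraMap r =>
    refine ⟨algebraMap ℂ (weyl τ) r, fun q => ?_⟩
    show r • rename f q = rename f (r • q)
    rw [map_smul]
  | add a b _ _ ha hb =>
    obtain ⟨a', ha⟩ := ha
    obtain ⟨b', hb⟩ := hb
    refine ⟨a' + b', fun q => ?_⟩
    show (a' : Module.End ℂ (MvPolynomial τ ℂ)) (rename f q) +
      (b' : Module.End ℂ (MvPolynomial τ ℂ)) (rename f q) = rename f (a q + b q)
    rw [map_add, ha, hb]
  | mul a b _ _ ha hb =>
    obtain ⟨a', ha⟩ := ha
    obtain ⟨b', hb⟩ := hb
    refine ⟨a' * b', fun q => ?_⟩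
    show (a' : Module.End ℂ (MvPolynomial τ ℂ)) ((b' : Module.End ℂ (MvPolynomial τ ℂ))
      (rename f q)) = rename f (a (b q))
    rw [hb, ha]

/-- the lift of an operator polynomial -/
theorem lift_poly {σ τ : Type} (f : σ → τ) (hf : Function.Injective f) (P : ℕ →₀ weyl σ) :
    ∃ P' : ℕ →₀ weyl τ, ∀ (a : ℂ) (q : MvPolynomial σ ℂ),
      (P'.sum fun m Q => (a ^ m) • (Q : Module.End ℂ (MvPolynomial τ ℂ)) (rename f q)) =
        rename f (P.sum fun m Q => (a ^ m) • (Q : Module.End ℂ (MvPolynomial σ ℂ)) q) := by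
  classical
  choose L hL using lift_inj (σ := σ) (τ := τ) f hf
  refine ⟨∑ m ∈ P.support, Finsupp.single m (L (P m)), fun a q => ?_⟩
  rw [← Finsupp.sum_finsetSum_index (fun m => by simp) (fun m Q Q' => by
    rw [← smul_add]
    rfl)]
  unfold Finsupp.sum
  rw [map_sum]
  refine Finset.sum_congr rfl fun m _ => ?_
  rw [map_smul, ← hL]
  have := Finsupp.sum_single_index (a := m) (b := L (P m))
    (h := fun m (Q : weyl τ) => (a ^ m) • (Q : Module.End ℂ (MvPolynomial τ ℂ)) (rename f q))
    (by simp)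
  exact this

theorem eval_map_rename {σ τ : Type} (f : σ → τ) (B : Polynomial (MvPolynomial σ ℂ)) (a : ℂ) :
    (B.map (rename f : MvPolynomial σ ℂ →ₐ[ℂ] MvPolynomial τ ℂ).toRingHom).eval (C a) =
      rename f (B.eval (C a)) := by
  have h1 : (C a : MvPolynomial τ ℂ) =
      (rename f : MvPolynomial σ ℂ →ₐ[ℂ] MvPolynomial τ ℂ).toRingHom (C a) := by
    show C a = rename f (C a)
    rw [rename_C]
  rw [h1, Polynomial.eval_map, Polynomial.eval₂_at_apply]
  rfl

theorem re_lift {σ τ : Type} (f : σ → τ) (hf : Function.Injective f) (g : MvPolynomial σ ℂ)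
    (B : Polynomial (MvPolynomial σ ℂ)) (P : ℕ →₀ weyl σ) (h : RE g B P) :
    ∃ P' : ℕ →₀ weyl τ, RE (rename f g)
      (B.map (rename f : MvPolynomial σ ℂ →ₐ[ℂ] MvPolynomial τ ℂ).toRingHom) P' := by
  obtain ⟨P', hP'⟩ := lift_poly f hf P
  refine ⟨P', fun k => ?_⟩
  have h1 := h k
  have h2 : ((k : ℕ) : MvPolynomial τ ℂ) = C (k : ℂ) := by simp
  have h3 : ((k : ℕ) : MvPolynomial σ ℂ) = C (k : ℂ) := by simp
  rw [h2, eval_map_rename, ← h3, ← map_pow, ← map_pow, hP', ← h1, map_smul, map_mul]

theorem applyAt_sum {σ ι α : Type} [Fintype ι] (S : Finset α) (P : α → ((ι →₀ ℕ) →₀ weyl σ))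
    (s : ι → ℕ) (q : MvPolynomial σ ℂ) :
    applyAt (∑ c ∈ S, P c) s q = ∑ c ∈ S, applyAt (P c) s q := by
  classical
  induction S using Finset.induction_on with
  | empty => simp [applyAt_zero]
  | insert a s ha ih =>
    rw [Finset.sum_insert ha, Finset.sum_insert ha, applyAt_add, ih]

theorem tL : StL where
  rf_of_sf := by
    intro τ g p β hβ hSF B P hP
    classical
    have h1 : mulB ((Polynomial.X + 1) * B) (G0 (fun _ : Fin 1 => g)) ∈ V (fun _ : Fin 1 => g) 1 := by
      have h2 : mulB ((Polynomial.X + 1) * B) (G0 (fun _ : Fin 1 => g)) =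
          gen (fun _ : Fin 1 => g) (P.mapDomain (fun m => Finsupp.single 0 m)) (fun _ => 1) := by
        funext s
        have h3 := hP (s 0)
        have h4 : ((s 0 : ℕ) : MvPolynomial τ ℂ) = C ((s 0 : ℕ) : ℂ) := by simp
        rw [h4] at h3
        have h5 : gterm (fun _ : Fin 1 => g) (fun _ => 1) s = g ^ (s 0 + 1) := by
          unfold gterm
          simp
        rw [gen, h5, applyAt, Finsupp.sum_mapDomain_index (fun m => by simp) (fun m Q Q' => by
          rw [← smul_add]
          rfl)]
        simp only [mulB, G0, Fin.sum_univ_one, Fin.prod_univ_one, Finsupp.single_eq_same, Fin.isValue]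
        rw [← h3, Polynomial.eval_mul, Polynomial.eval_add, Polynomial.eval_X,
          Polynomial.eval_one, smul_eq_C_mul, map_add, map_one]
        ring
      rw [h2]
      exact gen_mem _ _ _ (by simp)
    have h2 := hSF _ h1
    rw [Polynomial.eval_mul, Polynomial.eval_add, Polynomial.eval_X, Polynomial.eval_one,
      map_mul, map_add, eval_C, map_one] at h2
    refine (mul_eq_zero.1 h2).resolve_left ?_
    intro h3
    exact hβ (eq_neg_of_add_eq_zero_left h3)
  sf_of_rf := by
    intro τ g p β hRF B hB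
    classical
    obtain ⟨S, P, hS, hP⟩ := std_of_mem _ 1 _ hB
    let Q : (Fin 1 →₀ ℕ) →₀ weyl τ := ∑ c ∈ S, P c
    let P1 : ℕ →₀ weyl τ := Q.mapDomain (fun β => β 0)
    have key : ∀ k : ℕ, B.eval (C (k : ℂ)) * g ^ k =
        P1.sum fun m R => ((k : ℂ) ^ m) • (R : Module.End ℂ (MvPolynomial τ ℂ)) (g ^ (k + 1)) := by
      intro k
      have h1 := hP (fun _ => k)
      have h2 : mulB B (G0 (fun _ : Fin 1 => g)) (fun _ => k) = B.eval (C (k : ℂ)) * g ^ k := by
        simp [mulB, G0]
      rw [← h2, h1]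
      have h3 : ∀ c ∈ S, gen (fun _ : Fin 1 => g) (P c) c (fun _ => k) =
          applyAt (P c) (fun _ => k) (g ^ (k + 1)) := by
        intro c hc
        have h4 : c 0 = 1 := by
          have := hS c hc
          simpa using this
        have h5 : gterm (fun _ : Fin 1 => g) c (fun _ => k) = g ^ (k + 1) := by
          unfold gterm
          simp [h4]
        rw [gen, h5]
      rw [Finset.sum_congr rfl h3]
      have h6 : ∑ c ∈ S, applyAt (P c) (fun _ : Fin 1 => k) (g ^ (k + 1)) =
          applyAt Q (fun _ => k) (g ^ (k + 1)) := by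
        exact (applyAt_sum S P _ _).symm
      rw [h6]
      show _ = (Q.mapDomain (fun β => β 0)).sum _
      rw [Finsupp.sum_mapDomain_index (fun m => by simp) (fun m Q Q' => by
          rw [← smul_add]
          rfl)]
      unfold applyAt
      simp
    clear_value P1
    refine hRF B (P1.mapDomain (fun m => m + 1) + P1) ?_
    intro k
    have h4 : ((k : ℕ) : MvPolynomial τ ℂ) = C (k : ℂ) := by simp
    rw [h4, key k, Finsupp.sum_add_index' (fun m => by simp) (fun m Q Q' => by
          rw [← smul_add]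
          rfl), Finsupp.sum_mapDomain_index (fun m => by simp) (fun m Q Q' => by
          rw [← smul_add]
          rfl), add_smul, one_smul, Finsupp.smul_sum]
    congr 1
    refine Finsupp.sum_congr fun m _ => ?_
    rw [smul_smul]
    congr 1
    ring
  equiv := by
    intro σ τ e g p β h B P hP
    obtain ⟨P', hP'⟩ := re_lift (e.symm : τ → σ) e.symm.injective _ B P hP
    rw [rename_rename] at hP'
    have h1 : (e.symm : τ → σ) ∘ e = id := by
      funext x
      simp
    rw [h1, rename_id_apply] at hP'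
    have h2 := h _ _ hP'
    rw [eval_map_rename, eval_rename] at h2
    have h3 : (p ∘ e) ∘ (e.symm : τ → σ) = p := by
      funext x
      simp
    rwa [h3] at h2
  drop := by
    intro σ κ g p q β h B P hP
    obtain ⟨P', hP'⟩ := re_lift (Sum.inl : σ → σ ⊕ κ) Sum.inl_injective _ B P hP
    have h2 := h _ _ hP'
    rw [eval_map_rename, eval_rename] at h2
    exact h2

end Pool.Agent.Y475.TL
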